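import Pool.Agent.Helper446.CB.Main

/-!
Definability and invariance of the families of countable classes of a given Cantor–Bendixson rank
in the lattice of `Π⁰₁` classes.
-/

namespace Pool.Agent.Results.MP_6cbb02_lc.RankFamilies

open Pool.Agent.Helper446.CB

/-- Every family `R α` is invariant under all automorphisms of the lattice of `Π⁰₁` classes; `R α`
is definable in the lattice exactly for the finite `α` and for the `α` with `ω₁^CK ≤ α`; and `R α`
is nonempty exactly for `α < ω₁^CK`. -/
theorem result :
    (∀ α : Ordinal.{0}, IsInvariant (R α)) ∧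
    (∀ α : Ordinal.{0}, IsDefinable (R α) ↔ α < Ordinal.omega0 ∨ omegaCK ≤ α) ∧
    (∀ α : Ordinal.{0}, (R α).Nonempty ↔ α < omegaCK) :=
  ⟨Iv.invariant, definable_iff, nonempty_iff⟩

end Pool.Agent.Results.MP_6cbb02_lc.RankFamilies
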